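import Pool.Agent.helper3.T6.SpecH

set_option autoImplicit false

/-!
# T6, block H, row HMN
-/

namespace Pool.Agent.T6

open Finset NumberField Pool.Agent.helper3.FT Pool.Agent.helper47.RA Pool.Agent.T5
open scoped nonZeroDivisors

section

variable {K : Type} [Field K] [NumberField K]

theorem HMN_fin (Q : QF K) (hD : Q.D < 0) (κ N Y Y₂ H : ℝ) : (GS Q κ N Y Y₂ H).Finite := by
  have h : (⋃ a ∈ IA K Y, (fun α : 𝓞 K => (a, α)) ''
      AL Q a (Y₂ * √(-(Q.D : ℝ)) / √N)).Finite :=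
    (SFA.1 K Y).biUnion fun a _ => ((SFA.2.1 K Q hD a _).image _)
  refine h.subset fun x hx => ?_
  obtain ⟨h1, h2, -⟩ := hx
  rw [Set.mem_iUnion₂]
  exact ⟨x.1, h1, x.2, h2, rfl⟩

theorem HMN_count (Q : QF K) (hD : Q.D < 0) (κ N Y Y₂ H l c : ℝ)
    (hP : ∀ a ∈ IM Q Y l, ∃ P : Finset (𝓞 K), (∀ α ∈ P, (a, α) ∈ GS Q κ N Y Y₂ H) ∧
      c ≤ (P.card : ℝ)) :
    c * ((IM Q Y l).ncard : ℝ) ≤ ((GS Q κ N Y Y₂ H).ncard : ℝ) := by
  classical
  have hIM : (IM Q Y l).Finite := (SFA.1 K Y).subset fun a ha => ha.1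
  have hGS := HMN_fin Q hD κ N Y Y₂ H
  choose! P hP1 hP2 using hP
  have h1 : (hIM.toFinset.sigma fun a => P a).card ≤ hGS.toFinset.card := by
    refine Finset.card_le_card_of_injOn (fun x => (x.1, x.2)) ?_ ?_
    · rintro ⟨a, α⟩ hx
      rw [Finset.mem_coe, Finset.mem_sigma] at hx
      rw [Set.Finite.coe_toFinset]
      exact hP1 a ((Set.Finite.mem_toFinset hIM).1 hx.1) α hx.2
    · rintro ⟨a, α⟩ _ ⟨a', α'⟩ _ h
      simp only [Prod.mk.injEq] at h
      obtain ⟨rfl, rfl⟩ := h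
      rfl
  rw [Finset.card_sigma] at h1
  rw [Set.ncard_eq_toFinset_card _ hIM, Set.ncard_eq_toFinset_card _ hGS]
  have h2 : c * (hIM.toFinset.card : ℝ) ≤ ((∑ a ∈ hIM.toFinset, (P a).card : ℕ) : ℝ) := by
    push_cast
    rw [mul_comm, ← nsmul_eq_mul]
    exact Finset.card_nsmul_le_sum _ _ _ fun a ha => hP2 a ((Set.Finite.mem_toFinset hIM).1 ha)
  exact h2.trans (by exact_mod_cast h1)

end

theorem HMN (hHCNT : HCNT_stmt) (hHINJ : HINJ_stmt) (hTD : TD_stmt) : HMN_stmt := by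
  classical
  obtain ⟨η, hη, hI⟩ := hHINJ all_ALG hTD
  obtain ⟨A, η₁, N₁, hA, hη₁, hC⟩ := hHCNT η hη
  obtain ⟨C₂, N₂, hC₂, hI2⟩ := hI (1 / 100) A (by norm_num) hA
  have hA0 : 0 < A := lt_of_lt_of_le one_pos hA
  refine ⟨min η₁ (η / 4), C₂ * A, max (max N₁ N₂) (max 1 (A ^ (2 / η))), lt_min hη₁ (by linarith),
    ?_, ?_⟩
  · nlinarith
  intro N Y l hN hY1 hY2 hl
  have hN1 : N₁ ≤ N := le_trans (le_trans (le_max_left _ _) (le_max_left _ _)) hN
  have hN2 : N₂ ≤ N := le_trans (le_trans (le_max_right _ _) (le_max_left _ _)) hN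
  have hN3 : 1 ≤ N := le_trans (le_trans (le_max_left _ _) (le_max_right _ _)) hN
  have hN4 : A ^ (2 / η) ≤ N := le_trans (le_trans (le_max_right _ _) (le_max_right _ _)) hN
  have hN0 : 0 < N := lt_of_lt_of_le one_pos hN3
  have hsq : 0 < √N := Real.sqrt_pos.2 hN0
  have hsN : √N * √N = N := Real.mul_self_sqrt hN0.le
  have hY0 : 0 < Y := lt_of_lt_of_le (Real.rpow_pos_of_pos hN0 _) hY1
  have hl0 : 0 < 2 * l := lt_of_lt_of_le hY0 hY2
  have hYs : Y ≤ √N := hY2.trans hl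
  have hAη : A ≤ N ^ (η / 2) := by
    have h1 : (A ^ (2 / η)) ^ (η / 2) ≤ N ^ (η / 2) :=
      Real.rpow_le_rpow (Real.rpow_nonneg hA0.le _) hN4 (by linarith)
    rw [← Real.rpow_mul hA0.le] at h1
    have h2 : 2 / η * (η / 2) = 1 := by field_simp
    rwa [h2, Real.rpow_one] at h1
  have hYl : N ^ (1 / 2 - η / 4) ≤ Y := by
    refine le_trans (Real.rpow_le_rpow_of_exponent_le hN3 ?_) hY1
    linarith [min_le_right η₁ (η / 4)]
  have hYl1 : N ^ (1 / 2 - η₁) ≤ 2 * l := by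
    refine le_trans (Real.rpow_le_rpow_of_exponent_le hN3 ?_) (hY1.trans hY2)
    linarith [min_le_left η₁ (η / 4)]
  have hY2' : √N ≤ A * N / (2 * l) := by
    rw [le_div_iff₀ hl0]
    calc √N * (2 * l) ≤ √N * √N := mul_le_mul_of_nonneg_left hl hsq.le
      _ = N := hsN
      _ ≤ A * N := by nlinarith
  have hYY2 : Y ≤ A * N / (2 * l) := hYs.trans hY2'
  have hY2N : A * N / (2 * l) ≤ N ^ η * Y := by
    rw [div_le_iff₀ hl0]
    have h1 : A * N ≤ N ^ η * Y * Y := by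
      have h2 : N ^ (1 - η / 2) ≤ Y * Y := by
        have h3 : N ^ (1 - η / 2) = N ^ (1 / 2 - η / 4) * N ^ (1 / 2 - η / 4) := by
          rw [← Real.rpow_add hN0]
          congr 1
          ring
        rw [h3]
        exact mul_le_mul hYl hYl (Real.rpow_nonneg hN0.le _) hY0.le
      have h4 : N ^ (η / 2) * N = N ^ η * N ^ (1 - η / 2) := by
        rw [← Real.rpow_add hN0]
        nth_rw 2 [← Real.rpow_one N]
        rw [← Real.rpow_add hN0]
        congr 1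
        ring
      calc A * N ≤ N ^ (η / 2) * N := mul_le_mul_of_nonneg_right hAη hN0.le
        _ = N ^ η * N ^ (1 - η / 2) := h4
        _ ≤ N ^ η * (Y * Y) := mul_le_mul_of_nonneg_left h2 (Real.rpow_nonneg hN0.le _)
        _ = N ^ η * Y * Y := by ring
    refine h1.trans ?_
    exact mul_le_mul_of_nonneg_left hY2 (mul_nonneg (Real.rpow_nonneg hN0.le _) hY0.le)
  have hprod : Y * (A * N / (2 * l)) ≤ A * N := by
    rw [mul_div_assoc', div_le_iff₀ hl0]
    have : 0 ≤ A * N := by positivity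
    nlinarith
  have hprod2 : N ^ (1 - η) ≤ Y * (A * N / (2 * l)) := by
    have h1 : N ^ (1 - η) ≤ N ^ (1 / 2 - η / 4) * √N := by
      rw [Real.sqrt_eq_rpow, ← Real.rpow_add hN0]
      refine Real.rpow_le_rpow_of_exponent_le hN3 ?_
      linarith
    exact h1.trans (mul_le_mul hYl hY2' hsq.le hY0.le)
  have hsum := hI2 N Y (A * N / (2 * l)) hN2 hY0 hYY2 hY2N hprod hprod2
  have hle : √N / (2 * l) * ∑ D ∈ DN N, SF (fun _ E => ((IM E.Q Y l).ncard : ℝ)) D ≤
      ∑ D ∈ DN N, SF (fun _ E =>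
        ((GS E.Q (1 / 100) N Y (A * N / (2 * l)) (N ^ η)).ncard : ℝ)) D := by
    rw [Finset.mul_sum]
    refine Finset.sum_le_sum fun D hD => ?_
    unfold DN at hD
    rw [Finset.mem_filter, Finset.mem_Icc] at hD
    obtain ⟨⟨hD1, hD2⟩, -, hD3⟩ := hD
    unfold SF
    split_ifs with h
    · have hQ : h.some.Q.D = D := h.some.hD
      refine HMN_count h.some.Q (by rw [hQ]; omega) (1 / 100) N Y (A * N / (2 * l)) (N ^ η) l
        (√N / (2 * l)) fun a ha => ?_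
      refine hC h.some.K h.some.Q N Y l a hN1 ?_ ?_ hYs hYl1 hl ha
      · rw [hQ]
        exact hD3
      · rw [hQ]
        have h2 : -(D : ℝ) ≤ (⌊N⌋ : ℤ) := by
          have h3 : -D ≤ ⌊N⌋ := by omega
          exact_mod_cast h3
        exact h2.trans (Int.floor_le N)
    · rw [mul_zero]
  have h3 := hle.trans hsum
  have h4 : C₂ * (Y * (A * N / (2 * l))) = √N / (2 * l) * (C₂ * A * (√N * Y)) := by
    have h5 : √N / (2 * l) * (C₂ * A * (√N * Y)) = C₂ * A * Y * (√N * √N) / (2 * l) := by ring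
    rw [h5, hsN]
    ring
  rw [h4] at h3
  exact le_of_mul_le_mul_left h3 (div_pos hsq hl0)

end Pool.Agent.T6
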