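import Pool.Agent.helper82.T6.SpecL

set_option autoImplicit false

/-!
# T6, row NBF
-/

namespace Pool.Agent.T6

open Finset Pool.Agent.helper3.FT

theorem NBF_int (x : ℝ) : {a : ℤ | |(a : ℝ)| ≤ x}.Finite := by
  refine (Set.finite_Icc (-⌈x⌉) ⌈x⌉).subset fun a ha => ?_
  have h1 := abs_le.1 (show |(a : ℝ)| ≤ x from ha)
  have h2 : x ≤ ⌈x⌉ := Int.le_ceil x
  constructor
  · have h3 : ((-⌈x⌉ : ℤ) : ℝ) ≤ a := by
      push_cast
      linarith
    exact_mod_cast h3
  · have h3 : (a : ℝ) ≤ (⌈x⌉ : ℤ) := by linarith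
    exact_mod_cast h3

theorem NBF_fin (b V : ℝ) (hb : 0 < b) : {v : V4 | nrm b v ≤ V}.Finite := by
  have h := ((NBF_int (V * b ^ 5)).prod ((NBF_int (V * b)).prod
    ((NBF_int (V / b)).prod (NBF_int (V / b ^ 5)))))
  refine h.subset fun v hv => ?_
  have hv' : nrm b v ≤ V := hv
  unfold nrm at hv'
  simp only [max_le_iff] at hv'
  obtain ⟨⟨hA, hA'⟩, hB, hX⟩ := hv'
  have hb5 : 0 < b ^ 5 := by positivity
  rw [div_le_iff₀ hb5] at hA
  rw [div_le_iff₀ hb] at hA'
  rw [← le_div_iff₀ hb] at hB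
  rw [← le_div_iff₀ hb5] at hX
  exact ⟨hA, hA', hB, hX⟩

theorem NBF (hN1 : N1_stmt) (hNBD : NBD_stmt) : NBF_stmt := by
  classical
  intro b V H r i hb hH hH5 hV
  have hb0 : 0 < b := lt_of_lt_of_le one_pos hb
  have hHr : (0 : ℝ) < (H : ℝ) ^ 2 := by
    have : (0 : ℝ) < H := by exact_mod_cast hH
    positivity
  have hfin : {v : V4 | v ≠ 0 ∧ InG H r v ∧ nrm b v ≤ V ∧
      (Gd b H r ∨ nrm b v ≤ 2 ^ (i + 1) * lamb b H r)}.Finite :=
    (NBF_fin b V hb0).subset fun v hv => hv.2.2.1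
  have hc : NBf b V H r i = (hfin.toFinset.card : ℝ) := by
    unfold NBf
    rw [Set.ncard_eq_toFinset_card _ hfin]
  have ht1 : 0 ≤ 14641 * V ^ 4 / (H : ℝ) ^ 2 := by positivity
  have hlam : ∀ v : V4, v ≠ 0 → InG H r v → 0 < lamb b H r := by
    intro v hv0 hvG
    have h1 : 1 / b ^ 5 ≤ lamb b H r := by
      unfold lamb
      refine le_csInf ⟨_, v, hv0, hvG, rfl⟩ ?_
      rintro x ⟨w, hw0, -, rfl⟩
      exact ((hN1 b hb w w).2.2.2.2.1) hw0
    exact lt_of_lt_of_le (by positivity) h1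
  rw [hc]
  rcases hfin.toFinset.eq_empty_or_nonempty with he | ⟨v0, hv0⟩
  · rw [he, Finset.card_empty, Nat.cast_zero]
    have ht2 : 0 ≤ (if Gd b H r ∧ lamb b H r ≤ V then 343 * (V / lamb b H r) ^ 3 else 0) := by
      split_ifs with h
      · obtain ⟨⟨v, hvG, hvn, hvR⟩, -⟩ := h
        have hl : 0 ≤ lamb b H r := by
          rw [← hvn]
          exact (hN1 b hb v v).1
        positivity
      · exact le_refl _
    have ht3 : (0 : ℝ) ≤ (if ¬ Gd b H r ∧ lamb b H r ≤ V then 343 * 8 ^ (i + 1) else 0) := by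
      split_ifs
      · positivity
      · exact le_refl _
    linarith
  · rw [Set.Finite.mem_toFinset] at hv0
    have hl : 0 < lamb b H r := hlam v0 hv0.1 hv0.2.1
    by_cases hg : Gd b H r
    · have hno : ¬ (¬ Gd b H r ∧ lamb b H r ≤ V) := fun h => h.1 hg
      rw [if_neg hno, add_zero]
      rcases hNBD b V H r hfin.toFinset hb hH hH5 (fun v hv => by
        rw [Set.Finite.mem_toFinset] at hv
        exact ⟨hv.1, hv.2.1, hv.2.2.1⟩) with h | ⟨h1, h2⟩
      · have ht2 : 0 ≤ (if Gd b H r ∧ lamb b H r ≤ V then 343 * (V / lamb b H r) ^ 3 else 0) := by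
          split_ifs
          · positivity
          · exact le_refl _
        linarith
      · rw [if_pos ⟨hg, h1⟩]
        linarith
    · have hno : ¬ (Gd b H r ∧ lamb b H r ≤ V) := fun h => hg h.1
      rw [if_neg hno, add_zero]
      have hbd : ∀ v ∈ hfin.toFinset, nrm b v ≤ min V (2 ^ (i + 1) * lamb b H r) := by
        intro v hv
        rw [Set.Finite.mem_toFinset] at hv
        refine le_min hv.2.2.1 ?_
        rcases hv.2.2.2 with h | h
        · exact absurd h hg
        · exact h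
      have hV' : 0 ≤ min V (2 ^ (i + 1) * lamb b H r) := le_min hV (by positivity)
      rcases hNBD b (min V (2 ^ (i + 1) * lamb b H r)) H r hfin.toFinset hb hH hH5
        (fun v hv => ⟨((Set.Finite.mem_toFinset hfin).1 hv).1,
          ((Set.Finite.mem_toFinset hfin).1 hv).2.1, hbd v hv⟩) with h | ⟨h1, h2⟩
      · have ht3 : (0 : ℝ) ≤ (if ¬ Gd b H r ∧ lamb b H r ≤ V then 343 * 8 ^ (i + 1) else 0) := by
          split_ifs
          · positivity
          · exact le_refl _
        have h3 : 14641 * min V (2 ^ (i + 1) * lamb b H r) ^ 4 / (H : ℝ) ^ 2 ≤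
            14641 * V ^ 4 / (H : ℝ) ^ 2 := by
          refine div_le_div_of_nonneg_right ?_ hHr.le
          exact mul_le_mul_of_nonneg_left (pow_le_pow_left₀ hV' (min_le_left _ _) 4) (by norm_num)
        linarith
      · have h3 : lamb b H r ≤ V := h1.trans (min_le_left _ _)
        rw [if_pos ⟨hg, h3⟩]
        have h4 : min V (2 ^ (i + 1) * lamb b H r) / lamb b H r ≤ 2 ^ (i + 1) := by
          rw [div_le_iff₀ hl]
          exact min_le_right _ _
        have h5 : (min V (2 ^ (i + 1) * lamb b H r) / lamb b H r) ^ 3 ≤ 8 ^ (i + 1) := by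
          refine (pow_le_pow_left₀ (by positivity) h4 3).trans ?_
          rw [← pow_mul, mul_comm (i + 1) 3, pow_mul]
          norm_num
        linarith

end Pool.Agent.T6
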