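import Pool.Agent.helper82.T6.SpecL

set_option autoImplicit false

/-!
# T6, row Z2
-/

namespace Pool.Agent.T6

open Finset Pool.Agent.helper3.FT

theorem Z2_abs {z c : ℤ} (h : z ≠ 0) : |(c : ℝ)| ^ 3 ≤ |((c ^ 3 * z : ℤ) : ℝ)| := by
  have h1 : (1 : ℝ) ≤ |(z : ℝ)| := by
    have h2 : (1 : ℤ) ≤ |z| := Int.one_le_abs h
    exact_mod_cast h2
  rw [Int.cast_mul, Int.cast_pow, abs_mul, abs_pow]
  nlinarith [pow_nonneg (abs_nonneg (c : ℝ)) 3]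

theorem Z2 (hZ1 : Z1_stmt) : Z2_stmt := by
  intro b V n k v hb hc hn hk hW hv hV
  have hb0 : 0 < b := lt_of_lt_of_le one_pos hb
  obtain ⟨a, x, rfl⟩ := hZ1 n k v hc hn hk hW
  unfold nrm at hV
  simp only [max_le_iff] at hV
  obtain ⟨⟨hA, hA'⟩, hB, hX⟩ := hV
  have hb5 : 0 < b ^ 5 := by positivity
  have h15 : (1 : ℝ) ≤ b ^ 5 := one_le_pow₀ hb
  have hb1 : b ≤ b ^ 5 := by
    calc b = b ^ 1 := (pow_one b).symm
      _ ≤ b ^ 5 := pow_le_pow_right₀ hb (by norm_num)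
  rw [div_le_iff₀ hb5] at hA
  rw [div_le_iff₀ hb0] at hA'
  have hV0 : 0 ≤ V := le_trans (by positivity) hX
  have hX' : |((n ^ 3 * x : ℤ) : ℝ)| ≤ V * b ^ 5 := by
    have h1 : |((n ^ 3 * x : ℤ) : ℝ)| * 1 ≤ |((n ^ 3 * x : ℤ) : ℝ)| * b ^ 5 :=
      mul_le_mul_of_nonneg_left h15 (abs_nonneg _)
    have h2 : V * 1 ≤ V * b ^ 5 := mul_le_mul_of_nonneg_left h15 hV0
    linarith
  by_cases ha : a = 0
  · have hx : x ≠ 0 := by
      rintro rfl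
      apply hv
      rw [ha]
      simp
    refine ⟨(Z2_abs hx).trans hX', ?_⟩
    have h1 : k * (x * k ^ 2 + 2 * a * n ^ 2) = k ^ 3 * x := by rw [ha]; ring
    rw [h1] at hA'
    refine (Z2_abs hx).trans (hA'.trans ?_)
    exact mul_le_mul_of_nonneg_left hb1 hV0
  · refine ⟨?_, (Z2_abs ha).trans hA⟩
    by_cases hx : x = 0
    · have h1 : n * (2 * x * k ^ 2 - a * n ^ 2) = n ^ 3 * (-a) := by rw [hx]; ring
      rw [h1] at hB
      have h2 : |((n ^ 3 * (-a) : ℤ) : ℝ)| ≤ V * b ^ 5 := by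
        have h3 : |((n ^ 3 * (-a) : ℤ) : ℝ)| * 1 ≤ |((n ^ 3 * (-a) : ℤ) : ℝ)| * b :=
          mul_le_mul_of_nonneg_left hb (abs_nonneg _)
        have h4 : V * 1 ≤ V * b ^ 5 := mul_le_mul_of_nonneg_left h15 hV0
        linarith
      exact (Z2_abs (neg_ne_zero.2 ha)).trans h2
    · exact (Z2_abs hx).trans hX'

end Pool.Agent.T6
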